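import Pool.Agent.Run7.h371.FK.Ro

/-!
# Groups acting on trees with abelian edge groups, and Whitehead groups

`C` is any class of groups with the closure properties `ClosedE C` which contains the metabelian groups
and satisfies `AcylR C`, the fibred form of the closure property for acylindrical actions on trees. All
this is known for the class of the groups whose wreath products with finite groups satisfy the K- and
L-theoretic Farrell-Jones conjecture with coefficients: metabelian groups are due to Wegner; Knopf
proves that a finitely generated group `Q` with an acylindrical action on a tree satisfies the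
conjecture relative to the family of the virtually cyclic groups and the subgroups of the vertex
stabilizers, and `AcylR` follows by pulling this back along a surjection `G → Q` and by transitivity.
The torsion-free groups `Γ` in this class have `Wh(Γ) = 0`.

Let the group `G` act on a tree `T` with vertex stabilizers `G_v` in `C`. Neither `G` nor the vertex and
edge groups need be finitely generated or torsion-free, and the quotient need not be finite. The
edge groups at `v` are the stabilizers `G_v ∩ G_a` for the neighbours `a` of `v`. The theorem says that
`G` is in `C` in each of the following cases.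

* (1) The edge groups at each vertex commute with each other (so they generate an abelian subgroup of
  `G_v`), for instance the edge groups are central in the vertex groups.
* (2) The edge groups are abelian, and the centralizers in `G_v` of the nontrivial elements of the edge
  groups at `v` are abelian. This holds for all abelian edge groups if the vertex groups are
  commutative transitive, for instance torsion-free hyperbolic, torsion-free and hyperbolic relative to
  abelian groups, limit groups, torsion-free discrete groups of isometries of the hyperbolic 3-space,
  or solvable Baumslag-Solitar groups.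
* (3) The edge groups are abelian, their elements have unique roots in the vertex groups, and two edge
  groups at a vertex are commensurable or their intersection has at most `n` elements. Unique roots
  exist in bi-orderable groups (so in right-angled Artin groups and pure braid groups), torsion-free
  nilpotent groups and torsion-free hyperbolic groups.
* (4) The edge groups have finite index in the vertex groups, the vertex groups are virtually abelian,
  and the elements of `G_v` with finitely many conjugates in `G_v` commute (for instance, `G_v` is
  a crystallographic group or, more generally, finitely generated without finite normal subgroups).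
* (0) There is an equivariant equivalence relation `r v` on the neighbours of each vertex `v` (`LR`); it
  gives a decomposition of `T` into subtrees, the cylinders (`Cyl`). For some `k` and `n` at most `n`
  elements of `G` fix a chain of `k` cylinders (`Acy`, `Chn`), that is, vertices `v_0, ..., v_k` such that
  `v_i` and `v_{i+1}` are different vertices of the cylinder `y_i`, where `y_i` and `y_{i+1}` are
  different. For each cylinder `y`, either its stabilizer is in `C`, or there is an equivariant
  family of subgroups `Q v a`, for the edges `(v, a)` of `y`, such that (`Fe`): `Q v a` consists of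
  elements of `G_v` which preserve `y`; it depends only on `v` and `y`; if `x` is in `Q v a` and fixes
  `a`, then `x` is in `Q a v`; `Q v a` has finite index in the edge group, i.e. the intersection has; the
  group `Q v a` is abelian, or its commutator subgroup meets the edge group trivially and it is the
  kernel of a homomorphism from the stabilizer of `v` and `y` to a group in `C` (`Qc`).

(5) So if all torsion-free groups in `C` have trivial Whitehead group, then so do the torsion-free
subgroups of `G`.

In (2) the cylinders are given by the relation that nontrivial elements of the two edge groups commute,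
and `Q v a` is the centralizer of the edge group in `G_v`; in (3) by commensurability of the edge groups,
and `Q v a` consists of the elements with a power in the edge group; in (1) and (4) there is only
one cylinder.

The cases known before, as far as I know: graphs of abelian groups (Gandini, Meinert, Rüping), graphs of
virtually cyclic groups (Wu), acylindrical actions (Knopf), relatively hyperbolic groups (Bartels); in
the starting files of this repository edge groups which meet the commutator subgroup of their virtual
centralizer trivially (`MP_b6f35e_al.IsolatedEdgeGroups`), torsion-free groups whose vertex stabilizers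
are commensurable polycyclic groups; and virtually cyclic edge groups (`MP_98022b_gt.CyclicSplittings`
of this run). If the edge groups are not cyclic, the difficulty in (1), (2) and (3) is that a vertex
group can contain elements which conjugate an edge group to itself nontrivially, or products of
commutators which are in the edge groups, while at the same time the edge groups are not malnormal and
the action on `T` is not acylindrical.

Outline of the proof. The finitely generated subgroups of `G` act acylindrically on the tree of the
vertices and cylinders. So it is enough to consider the stabilizer of a cylinder; call it `G` again, with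
the subgroups `R_v = Q v a` of the vertex groups. Let `N` be the normal subgroup generated by them. Then
`N` meets `G_v` in `R_v`, `T/N` is a tree, and `G/N` acts on it with finite edge stabilizers, of bounded
order if one restricts to a finitely generated subgroup. By `AcylR` one has to consider the
preimages `N⟨g⟩` of the cyclic groups, which are in `C` since `[N, N]` acts on `T` with trivial edge
stabilizers, and the preimages `K = N G_s` of the vertex stabilizers. Here `G_s/R_s` need not be in `C`.
Let `O` be the orbit of `s` under `K`, which is one point of `T/N`. The edges of `T` fall into pieces which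
correspond to the branches of `T/N` at this point: two edges at a vertex `w` are related if `w` is
not in `O` or if they are in the same orbit under `R_w` (`br`). The group `N_y` of a piece `y` is generated
by the `R_v` for its vertices. Two vertices of `y` in `O` are in the same orbit under `N_y`
(`trans_y`), and so the groups `R_u`, for `u` in `O`, are all equal modulo the group `M` generated by all
`[N_y, N_y]`. Hence `P = R_s M` is normal in `K`, and `K/P` acts on the quotient by `P` of the tree of the
vertices and pieces; the stabilizers in `K/P` of the edges at the points of `O` are finite of bounded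
order. The stabilizers in `K` of the vertices of this tree are contained in `M G_u`, where `M` acts
freely on `T`, or are finite extensions of subgroups of `N`. So `AcylR` applies again.
-/

set_option autoImplicit false

namespace Pool.Agent.Results.MP_8f66f0_al.AbelianSplittings

open Subgroup
open Pool.Agent.Y110.FJ (ClosedE)
open Pool.Agent.N509.TK (LR Cyl cy Pres)
open Run7.h371.FJ (AcylR)
open Run7.h371.FK (Eg Fe Acy Fcc)

/-- `Wh(Γ)` is trivial, in the form of the frozen statement `S02245`: every invertible matrix over `ℤΓ`,
stabilised by an identity block, is `±g` on one diagonal entry times a product of commutators of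
invertible matrices. -/
def WhTrivial (Γ : Type) [Group Γ] : Prop :=
  ∀ (n : ℕ) (A : (Matrix (Fin n) (Fin n) (MonoidAlgebra ℤ Γ))ˣ),
    ∃ (m : ℕ) (g : Γ) (ε : ℤˣ)
      (C : (Matrix (Fin n ⊕ Fin (m + 1)) (Fin n ⊕ Fin (m + 1)) (MonoidAlgebra ℤ Γ))ˣ),
      C ∈ commutator (Matrix (Fin n ⊕ Fin (m + 1)) (Fin n ⊕ Fin (m + 1)) (MonoidAlgebra ℤ Γ))ˣ ∧
      Matrix.fromBlocks (↑A : Matrix (Fin n) (Fin n) (MonoidAlgebra ℤ Γ))
          (0 : Matrix (Fin n) (Fin (m + 1)) (MonoidAlgebra ℤ Γ))
          (0 : Matrix (Fin (m + 1)) (Fin n) (MonoidAlgebra ℤ Γ))
          (1 : Matrix (Fin (m + 1)) (Fin (m + 1)) (MonoidAlgebra ℤ Γ)) =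
        Matrix.diagonal (fun i : Fin n ⊕ Fin (m + 1) =>
            if i = Sum.inr (0 : Fin (m + 1)) then
              (MonoidAlgebra.single g ((ε : ℤ)) : MonoidAlgebra ℤ Γ) else 1) *
          (↑C : Matrix (Fin n ⊕ Fin (m + 1)) (Fin n ⊕ Fin (m + 1)) (MonoidAlgebra ℤ Γ))

theorem result (C : ∀ (G : Type) [Group G], Prop) (hC : ClosedE C)
    (hM : ∀ (G : Type) [Group G], derivedSeries G 2 = ⊥ → C G) (hA : AcylR C)
    {G V : Type} [Group G] [MulAction G V] (T : SimpleGraph V) (hT : T.IsTree)
    (hact : ∀ (g : G) (u v : V), T.Adj u v → T.Adj (g • u) (g • v))
    (hV : ∀ v : V, C ↥(MulAction.stabilizer G v)) :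
    -- (0) the general theorem
    (∀ (r : V → V → V → Prop) (k n : ℕ) (Q : V → V → Subgroup G), LR G T r → Acy G T r k n →
      (∀ (g : G) (v a : V), T.Adj v a → ∀ x ∈ Q v a, g * x * g⁻¹ ∈ Q (g • v) (g • a)) →
      (∀ y : Cyl T r, (∀ K : Subgroup G, (∀ g ∈ K, Pres hact y g) → C K) ∨
        ∀ (v a : V) (h : T.Adj v a), cy r h = y → Fe C T r Q v a) → C G) ∧
    -- (1) commuting edge groups
    ((∀ v a b, T.Adj v a → T.Adj v b → ∀ x ∈ Eg G v a, ∀ y ∈ Eg G v b, x * y = y * x) → C G) ∧
    ((∀ v a, T.Adj v a → ∀ x ∈ Eg G v a, ∀ y ∈ Eg G v a, x * y = y * x) →
      -- (2) abelian edge groups whose elements have abelian centralizers in the vertex groups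
      ((∀ v a, T.Adj v a → ∀ x ∈ Eg G v a, x ≠ 1 → ∀ y z : G, y • v = v → z • v = v →
        y * x = x * y → z * x = x * z → y * z = z * y) → C G) ∧
      -- (3) abelian edge groups whose elements have unique roots in the vertex groups
      (∀ n : ℕ, (∀ v a, T.Adj v a → ∀ x y : G, x • v = v → y • v = v → ∀ m : ℕ, m ≠ 0 →
          x ^ m = y ^ m → x ^ m ∈ Eg G v a → x = y) →
        (∀ v a b, T.Adj v a → T.Adj v b → a ≠ b → Commensurable (Eg G v a) (Eg G v b) ∨
          ∀ F : Finset G, (∀ g ∈ F, g ∈ Eg G v a ∧ g ∈ Eg G v b) → F.card ≤ n) → C G)) ∧
    -- (4) edge groups of finite index in virtually abelian vertex groups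
    ((∀ v a, T.Adj v a →
        (MulAction.stabilizer G a).relIndex (MulAction.stabilizer G v) ≠ 0) →
      (∀ v : V, ∃ A : Subgroup G, A ≤ MulAction.stabilizer G v ∧
        A.relIndex (MulAction.stabilizer G v) ≠ 0 ∧ ∀ x ∈ A, ∀ y ∈ A, x * y = y * x) →
      (∀ v : V, ∀ x y : G, Fcc (MulAction.stabilizer G v) x → Fcc (MulAction.stabilizer G v) y →
        x * y = y * x) → C G) ∧
    -- (5) Whitehead groups
    ((∀ (Γ : Type) [Group Γ], (∀ g : Γ, ∀ k : ℕ, 0 < k → g ^ k = 1 → g = 1) → C Γ →
        WhTrivial Γ) → C G →
      ∀ Γ : Subgroup G, (∀ g : Γ, ∀ k : ℕ, 0 < k → g ^ k = 1 → g = 1) → WhTrivial Γ) :=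
  ⟨fun _ k n Q hr hint heqv hE =>
      Run7.h371.FK.main hC hM hA hT hact hV hr k n hint Q heqv hE,
    fun h => Run7.h371.FK.commuting hC hM hA hT hact hV h,
    fun hab => ⟨fun h => Run7.h371.FK.centralizers hC hM hA hT hact hV hab h,
      fun n hU h => Run7.h371.FK.roots hC hM hA hT hact hV hab hU n h⟩,
    fun hfi hva h => Run7.h371.FK.finiteIndex hC hM hA hT hact hfi hva h,
    fun hW hG Γ hΓ => hW Γ hΓ (hC.base.of_injective Γ G Γ.subtype Γ.subtype_injective hG)⟩

end Pool.Agent.Results.MP_8f66f0_al.AbelianSplittings
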