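import Pool.Agent.Run7.h186.CuLin

/-!
# Determinants of Whitehead elements of neat linear groups of characteristic zero

Let `Γ` be a torsion-free group with a faithful representation `φ` of dimension `N` over a field
`K` of characteristic zero, and let `U` be a set of elements which `φ` maps to unipotent matrices.
Suppose that every other element `g ≠ 1` of which some power is mapped to a unipotent matrix has,
in every finitely generated subgroup `H` containing it, a centraliser which is commutative or which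
has a homomorphism to `ℤ` not vanishing at `g`.  If `Γ` is neat, the set `U` of all elements mapped
to unipotent matrices has this property, and there is no condition on centralisers.

For every invertible matrix `A` over `ℤΓ` there are an element `γ` of `Γ` and an integer `s ≠ 0`
such that `det ρ(A) = det ρ(γ)` or `det ρ(A) = - det ρ(γ)` for every field `L` in which `s ≠ 0` and
every finite dimensional representation `ρ` of `Γ` over `L` such that for `g` in `U` the matrix
`ρ(g)` is unipotent if one of its powers is. For instance `ρ = φ`, or `ρ` with a neat image.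
-/

set_option autoImplicit false

namespace Pool.Agent.Results.MP_8f66f0_al.NaturalDeterminants

open Pool.Agent.Y72.Log Pool.Agent.Y72.Dt Pool.Agent.Y72.Un H219.Wh Run7.h186

universe u v w

theorem result {Γ : Type u} [Group Γ] (htf : ∀ g : Γ, ∀ m : ℕ, 0 < m → g ^ m = 1 → g = 1)
    {K : Type v} [Field K] [CharZero K] {N : ℕ} (φ : Γ →* GL (Fin N) K)
    (hφ : Function.Injective φ) (U : Set Γ) (hU : ∀ g ∈ U, IsNilpotent ((φ g).val - 1))
    (h : ∀ H : Subgroup Γ, H.FG → ∀ g ∈ H, g ≠ 1 → g ∉ U → ∀ m : ℕ, 0 < m →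
      IsNilpotent ((φ (g ^ m)).val - 1) →
        (∀ x ∈ H, ∀ y ∈ H, x * g = g * x → y * g = g * y → x * y = y * x) ∨
        ∃ f : Γ → ℤ, (∀ x ∈ H, ∀ y ∈ H, x * g = g * x → y * g = g * y →
          f (x * y) = f x + f y) ∧ f g ≠ 0)
    {n : ℕ} (A : (Matrix (Fin n) (Fin n) (MonoidAlgebra ℤ Γ))ˣ) :
    ∃ (γ : Γ) (s : ℕ), s ≠ 0 ∧ ∀ (L : Type w) [Field L], (s : L) ≠ 0 → ∀ (d : ℕ)
      (ρ : Γ →* GL (Fin d) L), (∀ g ∈ U, ∀ m : ℕ, 0 < m → IsNilpotent ((ρ (g ^ m)).val - 1) →
        IsNilpotent ((ρ g).val - 1)) →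
      (Matrix.of fun x y : Fin n × Fin d =>
        (A.val x.1 y.1).coeff.sum fun g a => (a : L) * (ρ g).val x.2 y.2).det = (ρ γ).val.det ∨
      (Matrix.of fun x y : Fin n × Fin d =>
        (A.val x.1 y.1).coeff.sum fun g a => (a : L) * (ρ g).val x.2 y.2).det =
          - (ρ γ).val.det := by
  obtain ⟨H, hH, hS⟩ := exists_fg A
  obtain ⟨A', hA'⟩ := exists_sub A H hS
  haveI : Group.FG H := (Group.fg_iff_subgroup_fg H).2 hH
  have hn : Cu H {x : H | (x : Γ) ∈ U} := cu_of φ hφ htf U h H hH
  obtain ⟨s, hs, h1⟩ := glob.{v, u, w} (φ.comp H.subtype) (hφ.comp H.subtype_injective) A'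
  refine ⟨(gamA A' : H), s, hs, fun L _ hsL d ρ hρ => ?_⟩
  let ρ' : Γ →* Matrix (Fin d) (Fin d) L := (Units.coeHom _).comp ρ
  have hn' := hn.shrink (ρ.comp H.subtype) (fun w hw m hm => hρ w.1 hw m hm)
  have h2 := h1 _ hn' (fun x hx => hU x.1 hx.1) L hsL d (ρ'.comp H.subtype) (fun x hx => hx.2)
  have h3 : DD (ρ'.comp H.subtype) A'.val = (Matrix.of fun x y : Fin n × Fin d =>
      (A.val x.1 y.1).coeff.sum fun g a => (a : L) * (ρ g).val x.2 y.2).det := by
    unfold DD
    rw [← blkR_mpU, ← hA']
    congr 1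
    ext1 x y
    exact lrG_apply ρ' (A.val x.1 y.1) x.2 y.2
  rw [h3] at h2
  exact h2

end Pool.Agent.Results.MP_8f66f0_al.NaturalDeterminants
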