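import Pool.Agent.Run7.h909.SQ.Pres

/-!
# Groups acting on square complexes of nonpositive curvature, and the Whitehead group

`C` is any class of groups with the closure properties `ClosedE C` (it contains `ℤ`, is closed under
subgroups, finite products, free products, overgroups of finite index and directed colimits, and satisfies
the extension criterion) which contains the extensions of free groups of arbitrary rank by `ℤ` (`FbC C`)
and the groups acting properly and cocompactly on simply connected locally finite piecewise Euclidean
complexes of dimension two and of nonpositive curvature (`CatC C`), and all of whose torsion-free members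
have trivial Whitehead group (`WhFor`). All this is known for the class of the
groups whose wreath products with finite groups satisfy the K- and L-theoretic Farrell-Jones conjecture
with coefficients (Bartels, Farrell, Lück, Reich, Wegner; Bestvina, Fujiwara, Wigglesworth and Brück,
Kielak, Wu for the extensions of free groups).

A square complex of nonpositive curvature (`Cub T F`) is given by a graph `T` and a set `F` of squares
glued in along closed edge paths of length four: two squares with a common corner are equal, and the
links of the vertices contain no triangles. There is no finiteness condition.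

* (1) Let `G` act on a simply connected square complex of nonpositive curvature. Suppose that for each pair
  of vertices `x`, `y` which are equal, adjacent or opposite in a square there is a homomorphism from `G` to
  a group in `C` which is injective on the set of the elements that preserve `{x, y}`. Then `G` is in
  `C`. The complex need not be locally finite, there may be infinitely many orbits, and the stabilizers
  may be arbitrarily large.
* (2) If `N` is a normal subgroup of `G`, `G / N` is in `C`, `G` acts on a simply connected square complex of
  nonpositive curvature and no nontrivial element of `N` preserves a vertex, an edge or a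
  diagonal of a square, then `G` is in `C`.
* (3) Let `Γ` be a triangle-free graph, let `K` be a group with subgroups `D ≤ A_v` for the vertices `v` of
  `Γ` such that `A_v ∩ A_w = D` for the edges `{v, w}`, and let `K` be the colimit of the groups
  `D`, `A_v` and `⟨A_v, A_w⟩` (`{v, w}` an edge). If for each vertex and for each edge there is a
  homomorphism from `K` to a group in `C` which is injective on `A_v` respectively on `⟨A_v, A_w⟩`, then `K`
  is in `C`. These are the fundamental groups of the simple complexes of groups over triangle-free
  graphs, for instance of the polygons of groups with at least four sides.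
* (4) Let `Γ` be a triangle-free graph, `G_v` a group for each vertex and `K` the quotient of the
  free product of the groups `G_v` by a set of relators such that each relator is a word in the
  two groups of an edge and has trivial image in both of them. Then `K` is in `C` if and only if
  all groups `G_v` are in `C` and for all edges `{v, w}` the subgroup of `K` generated by `G_v` and `G_w` is
  in `C`. For instance, let a group be given by generators `s_i` and relators each of which is in the
  commutator subgroup of the free group on two generators `s_i`, `s_j` such that `{i, j}` is an
  edge of a triangle-free graph. It is in `C` as soon as this holds for the groups with two of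
  these generators and the relators between them.

In all cases the Whitehead group of the group is trivial if the group is torsion-free.

Actions on one tree are in the starting files (`N24.TR`), actions on two trees in my `TwoTrees`, actions
with finite stabilizers on arbitrary complexes of dimension two in my `TwoDimensionalComplexes`. Graph
products are the case of (4) in which the relators are all commutators of the two groups (Gandini and
Rüping, for all graphs). The general actions of (1) need not be special, in contrast to
`SpecialActions` of helper528, and the stabilizers need not be finite.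

Outline of the proof of (1). By the extension criterion and by passing to the preimages of cyclic
subgroups one may assume that there is a homomorphism `κ` from `G` to `ℤ` which is injective on all
stabilizers of cells (`SQ.cyc`). Subcomplexes of a square complex of nonpositive curvature are again
of this kind, so `G` is a directed colimit of groups `H` which act on simply connected square complexes
`X` of nonpositive curvature with finitely many orbits, with the same stabilizers (`TT.colJ`). For such
`H` let `K` be the normal subgroup generated by the elements with a fixed point and with `κ` divisible by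
a suitable `n`. In the second subdivision of `X` (`SQ.Cub.sub`, `SQ.SC.sub`) two adjacent vertices, or
two opposite vertices of a square, are never in one orbit of `K`, and two neighbours of a vertex
which are in one orbit are in one orbit of its stabilizer (`SQ.s_op`, `SQ.s_nb`). The links of
the quotient contain no bigons and no triangles if `n` is divisible by the finite indices of
stabilizers and large compared with the values of `κ` on finitely many elements (`SQ.Cc0.exn`). So
`X / K` is a simply connected square complex of nonpositive curvature, and `H / K` acts on it properly and
cocompactly (`SQ.cub_quot`, `SQ.sc_quot`). The kernel of `κ` in `K` acts freely on an invariant tree,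
the preimage of what remains when `X / K` is collapsed to a vertex along shortest edge paths, so it is free
(`SQ.Dat.tree`, `SQ.Cc0.free`). Hence `H` is an extension of a subgroup of `(H / K) × ℤ` by a free
group and is in `C` (`SQ.Cc0.mem`). For (3) the group `K` acts on the complex whose vertices are the
cosets of `D`, of the `A_v` and of the `⟨A_v, A_w⟩`; it is simply connected because `K` is the colimit
(`SQ.cubX`, `SQ.scX`).
-/

set_option autoImplicit false

namespace Pool.Agent.Results.MP_8f66f0_al.SquareComplexes

open Pool.Agent.Y110.FJ (ClosedE)
open Pool.Agent.R684.FP (FbC)
open Run7.h909.TD Run7.h909.SQ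
open Monoid (CoprodI)

/-- if `Γ` is torsion-free then its Whitehead group is trivial -/
def WhFor (Γ : Type) [Group Γ] : Prop :=
  (∀ g : Γ, ∀ k : ℕ, 0 < k → g ^ k = 1 → g = 1) →
    ∀ (n : ℕ) (A : (Matrix (Fin n) (Fin n) (MonoidAlgebra ℤ Γ))ˣ),
      ∃ (m : ℕ) (g : Γ) (ε : ℤˣ)
        (C : (Matrix (Fin n ⊕ Fin (m + 1)) (Fin n ⊕ Fin (m + 1)) (MonoidAlgebra ℤ Γ))ˣ),
        C ∈ commutator (Matrix (Fin n ⊕ Fin (m + 1)) (Fin n ⊕ Fin (m + 1))
                (MonoidAlgebra ℤ Γ))ˣ ∧
        Matrix.fromBlocks (↑A : Matrix (Fin n) (Fin n) (MonoidAlgebra ℤ Γ))
            (0 : Matrix (Fin n) (Fin (m + 1)) (MonoidAlgebra ℤ Γ))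
            (0 : Matrix (Fin (m + 1)) (Fin n) (MonoidAlgebra ℤ Γ))
            (1 : Matrix (Fin (m + 1)) (Fin (m + 1)) (MonoidAlgebra ℤ Γ)) =
          Matrix.diagonal (fun i : Fin n ⊕ Fin (m + 1) =>
              if i = Sum.inr (0 : Fin (m + 1)) then
                (MonoidAlgebra.single g ((ε : ℤ)) : MonoidAlgebra ℤ Γ) else 1) *
            (↑C : Matrix (Fin n ⊕ Fin (m + 1)) (Fin n ⊕ Fin (m + 1)) (MonoidAlgebra ℤ Γ))

/-- `Γ` has no triangles -/
def NoTriangle {W : Type} (Γ : SimpleGraph W) : Prop :=
  ∀ u v w, Γ.Adj u v → Γ.Adj v w → Γ.Adj w u → False

/-- some homomorphism to a group in `C` kills no nontrivial element of `S` -/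
def Detected (C : ∀ (G : Type) [Group G], Prop) {G : Type} [Group G] (S : Set G) : Prop :=
  ∃ (P : Type) (_ : Group P) (f : G →* P), C P ∧ ∀ g ∈ S, f g = 1 → g = 1

/-- (1) actions on square complexes -/
def Actions (C : ∀ (G : Type) [Group G], Prop) : Prop :=
  ∀ (G V : Type) [Group G] [MulAction G V] (T : SimpleGraph V) (F : Set (ℤ → V)),
    Cub T F → SC T F → Ac G T F →
    (∀ x y : V, InCell T F x y → Detected C {g : G | Prs g x y}) → C G ∧ WhFor G

/-- (2) free actions of a normal subgroup -/
def Extensions (C : ∀ (G : Type) [Group G], Prop) : Prop :=
  ∀ (G V : Type) [Group G] [MulAction G V] (T : SimpleGraph V) (F : Set (ℤ → V))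
    (N : Subgroup G) [N.Normal], Cub T F → SC T F → Ac G T F → C (G ⧸ N) →
    (∀ x y : V, InCell T F x y → ∀ g ∈ N, Prs g x y → g = 1) → C G ∧ WhFor G

/-- (3) colimits over triangle-free graphs -/
def Colimits (C : ∀ (G : Type) [Group G], Prop) : Prop :=
  ∀ (K W : Type) [Group K] [Nonempty W] (Γ : SimpleGraph W) (A : W → Subgroup K)
    (D : Subgroup K), NoTriangle Γ → (∀ v, D ≤ A v) → (∀ v w, Γ.Adj v w → A v ⊓ A w = D) →
    IsCol Γ A D → (∀ v, Detected C ((A v : Subgroup K) : Set K)) →
    (∀ v w, Γ.Adj v w → Detected C ((A v ⊔ A w : Subgroup K) : Set K)) → C K ∧ WhFor K

/-- (4) free products with relators along the edges of a triangle-free graph -/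
def Relators (C : ∀ (G : Type) [Group G], Prop) : Prop :=
  ∀ (W : Type) (Γ : SimpleGraph W) (G : W → Type) [∀ v, Group (G v)] (R : Set (CoprodI G)),
    NoTriangle Γ → Rels Γ R →
    (C (Qt R) ↔ (∀ v, C (G v)) ∧ ∀ v w, Γ.Adj v w → C ↥(Fa R v ⊔ Fa R w)) ∧
    (C (Qt R) → WhFor (Qt R))

theorem result (C : ∀ (G : Type) [Group G], Prop) (hC : ClosedE C) (hF : FbC C) (hcat : CatC C)
    (hB : ∀ (G : Type) [Group G], C G → WhFor G) :
    Actions C ∧ Extensions C ∧ Colimits C ∧ Relators C := by
  refine ⟨?_, ?_, ?_, ?_⟩
  · intro G V _ _ T F h1 h2 h3 h
    have := squares hC hF hcat h1 h2 h3 h
    exact ⟨this, hB G this⟩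
  · intro G V _ _ T F N _ h1 h2 h3 h4 h
    have := squares_ext hC hF hcat h1 h2 h3 N h4 h
    exact ⟨this, hB G this⟩
  · intro K W _ _ Γ A D h1 h2 h3 h4 h5 h6
    have := col_mem hC hF hcat h4 h1 h2 h3 h5 fun v w hvw => h6 v w hvw
    exact ⟨this, hB K this⟩
  · intro W Γ G _ R h1 h2
    exact ⟨pres_mem hC hF hcat h1 h2, hB _⟩

end Pool.Agent.Results.MP_8f66f0_al.SquareComplexes
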